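import Pool.Agent.helper52.WP.SpecA

/-!
# Project wp:, module FXP
-/

set_option autoImplicit false

open Complex Metric Set Filter Topology MeasureTheory
open V3S (UF)
open WP

noncomputable section

namespace WPA

/-- a contraction of a closed ball has a fixed point. -/
theorem FXP_contr (T : ℂ → ℂ) (y : ℂ) (r : ℝ) (hr : 0 ≤ r) (hm : ∀ x ∈ closedBall y r, T x ∈ closedBall y r)
    (hl : ∀ x ∈ closedBall y r, ∀ x' ∈ closedBall y r, ‖T x - T x'‖ ≤ 1 / 4 * ‖x - x'‖) : ∃ x ∈ closedBall y r, T x = x := by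
  have hms : MapsTo T (closedBall y r) (closedBall y r) := fun x hx => hm x hx
  have hc : ContractingWith (1 / 4) (hms.restrict T (closedBall y r) (closedBall y r)) := by
    refine ⟨?_, ?_⟩
    · rw [← NNReal.coe_lt_coe]
      norm_num
    · apply LipschitzWith.of_dist_le_mul
      intro a b
      rw [Subtype.dist_eq, Subtype.dist_eq, dist_eq_norm, dist_eq_norm]
      have h1 := hl a.1 a.2 b.1 b.2
      simp only [MapsTo.val_restrict_apply]
      calc ‖T a.1 - T b.1‖ ≤ 1 / 4 * ‖a.1 - b.1‖ := h1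
        _ = ((1 / 4 : NNReal) : ℝ) * ‖a.1 - b.1‖ := by norm_num
  obtain ⟨x, hx, hfx, _⟩ := hc.exists_fixedPoint' isClosed_closedBall.isComplete hms (mem_closedBall_self hr) (edist_ne_top y (T y))
  exact ⟨x, hx, hfx⟩

theorem FXP (hKO3 : V3.KO3_stmt) : FXP_stmt := by
  intro δ hδ hδ1
  obtain ⟨C, hC1, hC⟩ := hKO3 (1 / 2) (by norm_num) (by norm_num)
  have hC0 : 0 < C := by linarith
  have hσ0 : 0 < δ / (320 * C) := by positivity
  refine ⟨δ / (320 * C) * δ / 80, by positivity, ?_⟩
  intro h y s hs hd hi hy h1 h2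
  obtain ⟨σ, hσ⟩ : ∃ σ, σ = δ / (320 * C) := ⟨_, rfl⟩
  rw [← hσ] at hσ0 hy
  have hσ1 : C * σ = δ / 320 := by
    rw [hσ]
    field_simp
  have hσ2 : σ ≤ 1 / 320 := by
    rw [hσ, div_le_div_iff₀ (by positivity) (by norm_num)]
    nlinarith
  obtain ⟨-, hK⟩ := hC h y s hs hd hi
  have hr0 : 0 < σ * s := by positivity
  have hrs : σ * s < (1 - 1 / 2) * s := by nlinarith
  have hrs' : σ * s < s := by nlinarith
  have hsub : closedBall y (σ * s) ⊆ ball y s := fun x hx => lt_of_le_of_lt (mem_closedBall.1 hx) hrs'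
  have hde : ∀ x ∈ closedBall y (σ * s), ‖deriv h x - deriv h y‖ ≤ δ / 160 := by
    intro x hx
    have hx1 : x ∈ ball y ((1 - 1 / 2) * s) := lt_of_le_of_lt (mem_closedBall.1 hx) hrs
    obtain ⟨_, _, _, h3⟩ := hK x hx1
    have hx2 : ‖x - y‖ ≤ σ * s := by
      rw [← dist_eq_norm]
      exact mem_closedBall.1 hx
    have hx3 : ‖x - y‖ / s ≤ σ := by
      rw [div_le_iff₀ hs]
      exact hx2
    calc ‖deriv h x - deriv h y‖ ≤ C * (‖x - y‖ / s) * ‖deriv h y‖ := h3
      _ ≤ C * σ * 2 := by
        apply mul_le_mul _ (by linarith) (norm_nonneg _) (by positivity)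
        exact mul_le_mul_of_nonneg_left hx3 hC0.le
      _ = δ / 160 := by rw [hσ1]; ring
  have hdiff : ∀ x ∈ closedBall y (σ * s), DifferentiableAt ℂ h x := fun x hx =>
    hd.differentiableAt (isOpen_ball.mem_nhds (hsub hx))
  have hne : deriv h y - 1 ≠ 0 := by
    intro h0
    rw [h0, norm_zero] at h2
    linarith
  have hne' : 1 - deriv h y ≠ 0 := by
    intro h0
    apply hne
    linear_combination -h0
  have hnn : δ / 40 ≤ ‖1 - deriv h y‖ := by
    rw [norm_sub_rev]
    exact h2
  have hnp : 0 < ‖1 - deriv h y‖ := by linarith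
  -- the error term
  have hE : ∀ x ∈ closedBall y (σ * s), ∀ x' ∈ closedBall y (σ * s),
      ‖(h x - deriv h y * x) - (h x' - deriv h y * x')‖ ≤ δ / 160 * ‖x - x'‖ := by
    intro x hx x' hx'
    apply Convex.norm_image_sub_le_of_norm_deriv_le (f := fun x => h x - deriv h y * x) (s := closedBall y (σ * s)) (𝕜 := ℂ) _ _ (convex_closedBall _ _) hx' hx
    · intro z hz
      exact (hdiff z hz).sub ((differentiableAt_const _).mul differentiableAt_id)
    · intro z hz
      have e1 : deriv (fun x => h x - deriv h y * x) z = deriv h z - deriv h y := by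
        have e2 : HasDerivAt (fun x => h x - deriv h y * x) (deriv h z - deriv h y * 1) z :=
          (hdiff z hz).hasDerivAt.sub ((hasDerivAt_id z).const_mul (deriv h y))
        rw [e2.deriv, mul_one]
      rw [e1]
      exact hde z hz
  have hy0 : y ∈ closedBall y (σ * s) := mem_closedBall_self hr0.le
  -- the contraction
  obtain ⟨x, hx, hfx⟩ := FXP_contr (fun x => (h x - deriv h y * x) / (1 - deriv h y)) y (σ * s) hr0.le (by
      intro x hx
      rw [mem_closedBall, dist_eq_norm]
      have e1 : (h x - deriv h y * x) / (1 - deriv h y) - y =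
          (((h x - deriv h y * x) - (h y - deriv h y * y)) + (h y - y)) / (1 - deriv h y) := by
        field_simp
        ring
      rw [e1, norm_div, div_le_iff₀ hnp]
      have e2 := hE x hx y hy0
      have e3 : ‖x - y‖ ≤ σ * s := by
        rw [← dist_eq_norm]
        exact mem_closedBall.1 hx
      calc ‖((h x - deriv h y * x) - (h y - deriv h y * y)) + (h y - y)‖
          ≤ ‖(h x - deriv h y * x) - (h y - deriv h y * y)‖ + ‖h y - y‖ := norm_add_le _ _
        _ ≤ δ / 160 * (σ * s) + σ * δ / 80 * s := by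
          apply add_le_add _ hy
          exact le_trans e2 (mul_le_mul_of_nonneg_left e3 (by positivity))
        _ ≤ σ * s * (δ / 40) := by nlinarith [mul_pos hr0 hδ]
        _ ≤ σ * s * ‖1 - deriv h y‖ := mul_le_mul_of_nonneg_left hnn hr0.le) (by
      intro x hx x' hx'
      have e1 : (h x - deriv h y * x) / (1 - deriv h y) - (h x' - deriv h y * x') / (1 - deriv h y) =
          ((h x - deriv h y * x) - (h x' - deriv h y * x')) / (1 - deriv h y) := by
        ring
      show ‖(h x - deriv h y * x) / (1 - deriv h y) - (h x' - deriv h y * x') / (1 - deriv h y)‖ ≤ _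
      rw [e1, norm_div, div_le_iff₀ hnp]
      calc ‖(h x - deriv h y * x) - (h x' - deriv h y * x')‖ ≤ δ / 160 * ‖x - x'‖ := hE x hx x' hx'
        _ = 1 / 4 * ‖x - x'‖ * (δ / 40) := by ring
        _ ≤ 1 / 4 * ‖x - x'‖ * ‖1 - deriv h y‖ := mul_le_mul_of_nonneg_left hnn (by positivity))
  refine ⟨x, hsub hx, ?_, ?_⟩
  · have e1 : (h x - deriv h y * x) / (1 - deriv h y) = x := hfx
    rw [div_eq_iff hne'] at e1
    linear_combination e1
  · have e1 := hde x hx
    have e2 : ‖deriv h x‖ ≤ ‖deriv h x - deriv h y‖ + ‖deriv h y‖ := by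
      calc ‖deriv h x‖ = ‖(deriv h x - deriv h y) + deriv h y‖ := by rw [sub_add_cancel]
        _ ≤ _ := norm_add_le _ _
    linarith

end WPA
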